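import Mathlib
import Pool.Agent.H759R2.Kad.Props5

open scoped ComplexOrder InnerProductSpace ComplexConjugate
open Finset

noncomputable section

namespace H759R2.Kad

universe u v

namespace F07

section abs

variable {A : Type u} [CStarAlgebra A]

theorem tau_nonneg [PartialOrder A] [StarOrderedRing A] {τ : A →ₗ[ℂ] ℂ} (hτ : IsTracialState τ)
    {b : A} (hb : 0 ≤ b) : 0 ≤ τ b := by
  obtain ⟨c, rfl⟩ := CStarAlgebra.nonneg_iff_eq_star_mul_self.1 hb
  exact hτ.pos c

theorem eq_zero_of_tau [PartialOrder A] [StarOrderedRing A] {τ : A →ₗ[ℂ] ℂ}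
    (hf : ∀ a : A, τ (star a * a) = 0 → a = 0) {b : A} (hb : 0 ≤ b) (h : τ b = 0) : b = 0 := by
  obtain ⟨c, rfl⟩ := CStarAlgebra.nonneg_iff_eq_star_mul_self.1 hb
  rw [hf c h, mul_zero]

theorem pos_part {p b : A} (hp : star p = p) (hpp : p * p = p) (hb : star b = b)
    (hpb : p * b = b) : p * b⁺ = b⁺ ∧ p * b⁻ = b⁻ ∧ b⁻ * p = p * b⁻ := by
  have hbp : b * p = b := by
    have := congrArg star hpb
    rwa [star_mul, hb, hp] at this
  have hcomm : Commute b p := by
    show b * p = p * b
    rw [hbp, hpb]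
  have hc1 : Commute b⁺ p := hcomm.cfcₙ_real _
  have hc2 : Commute b⁻ p := hcomm.cfcₙ_real _
  have hsub : b⁺ - b⁻ = b := CFC.posPart_sub_negPart b hb
  have h1 : (1 - p) * b⁺ = (1 - p) * b⁻ := by
    have h2 : (1 - p) * (b⁺ - b⁻) = 0 := by rw [hsub, sub_mul, one_mul, hpb, sub_self]
    rw [mul_sub] at h2
    exact sub_eq_zero.1 h2
  have hs : star b⁺ = b⁺ := cfcₙ_predicate (R := ℝ) (p := IsSelfAdjoint) (·⁺ : ℝ → ℝ) b
  have h3 : (1 - p) * b⁺ = 0 := by
    apply (CStarRing.star_mul_self_eq_zero_iff _).1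
    have h4 : (1 - p) * (1 - p) = 1 - p := by
      rw [sub_mul, mul_sub, mul_sub, hpp]; simp
    have h5 : b⁺ * (1 - p) = (1 - p) * b⁺ := by
      rw [mul_sub, sub_mul, mul_one, one_mul, hc1.eq]
    calc star ((1 - p) * b⁺) * ((1 - p) * b⁺) = b⁺ * ((1 - p) * ((1 - p) * b⁺)) := by
          rw [star_mul, hs, star_sub, star_one, hp, mul_assoc]
      _ = b⁺ * ((1 - p) * b⁺) := by rw [← mul_assoc (1 - p), h4]
      _ = b⁺ * ((1 - p) * b⁻) := by rw [h1]
      _ = (1 - p) * (b⁺ * b⁻) := by rw [← mul_assoc, h5, mul_assoc]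
      _ = 0 := by rw [CFC.posPart_mul_negPart, mul_zero]
  refine ⟨?_, ?_, hc2.eq⟩
  · rw [sub_mul, one_mul, sub_eq_zero] at h3
    exact h3.symm
  · rw [h1, sub_mul, one_mul, sub_eq_zero] at h3
    exact h3.symm

/-- range projections -/
def HR (A : Type u) [CStarAlgebra A] : Prop :=
  ∀ b : A, ∃ r : A, star r = r ∧ r * r = r ∧ r * b = b ∧ ∀ x : A, x * b = 0 → x * r = 0

/-- comparison -/
def HC (A : Type u) [CStarAlgebra A] : Prop :=
  ∀ p q : A, star p = p → p * p = p → star q = q → q * q = q →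
    ∃ v : A, (star v * v = p ∧ q * v = v) ∨ (v * star v = q ∧ v * p = v)

/-- minimal projection -/
structure HM (p : A) : Prop where
  sa : star p = p
  idem : p * p = p
  ne : p ≠ 0
  min : ∀ q : A, star q = q → q * q = q → p * q = q → q = 0 ∨ q = p

theorem sign [PartialOrder A] [StarOrderedRing A] (hR : HR A) {p : A} (hp : HM p) {b : A}
    (hb : star b = b) (hpb : p * b = b) : 0 ≤ b ∨ 0 ≤ -b := by
  obtain ⟨h1, h2, h3⟩ := pos_part hp.sa hp.idem hb hpb
  have hsub : b⁺ - b⁻ = b := CFC.posPart_sub_negPart b hb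
  obtain ⟨r, hr1, hr2, hr3, hr4⟩ := hR b⁺
  have hpr : p * r = r := by
    have h4 : (1 - p) * b⁺ = 0 := by rw [sub_mul, one_mul, h1, sub_self]
    have h5 := hr4 _ h4
    rw [sub_mul, one_mul, sub_eq_zero] at h5
    exact h5.symm
  rcases hp.min r hr1 hr2 hpr with h0 | h0
  · right
    have h4 : b⁺ = 0 := by rw [← hr3, h0, zero_mul]
    rw [h4, zero_sub] at hsub
    rw [← hsub, neg_neg]
    exact CFC.negPart_nonneg b
  · left
    have h4 : b⁻ * p = 0 := by
      rw [← h0]
      exact hr4 _ (CFC.negPart_mul_posPart b)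
    rw [h3, h2] at h4
    rw [h4, sub_zero] at hsub
    rw [← hsub]
    exact CFC.posPart_nonneg b

theorem tau_p_pos {τ : A →ₗ[ℂ] ℂ} (hτ : IsTracialState τ)
    (hf : ∀ a : A, τ (star a * a) = 0 → a = 0) {p : A} (hp : HM p) :
    0 < (τ p).re ∧ (τ p).im = 0 := by
  have h1 : 0 ≤ τ p := by
    have := hτ.pos p
    rwa [hp.sa, hp.idem] at this
  rw [Complex.nonneg_iff] at h1
  refine ⟨lt_of_le_of_ne h1.1 ?_, h1.2.symm⟩
  intro h2
  apply hp.ne
  apply hf
  rw [hp.sa, hp.idem]
  exact Complex.ext h2.symm h1.2.symm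

theorem scalar_sa [PartialOrder A] [StarOrderedRing A] (hR : HR A) {τ : A →ₗ[ℂ] ℂ}
    (hτ : IsTracialState τ) (hf : ∀ a : A, τ (star a * a) = 0 → a = 0) {p : A} (hp : HM p)
    {a : A} (ha : star a = a) (hpa : p * a = a) : ∃ c : ℂ, a = c • p := by
  obtain ⟨h1, h2⟩ := tau_p_pos hτ hf hp
  set t : ℝ := (τ a).re / (τ p).re with ht
  refine ⟨(t : ℂ), ?_⟩
  set b := a - (t : ℂ) • p with hb
  have hbs : star b = b := by
    rw [hb, star_sub, star_smul, ha, hp.sa]
    simp
  have hpb : p * b = b := by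
    rw [hb, mul_sub, hpa, mul_smul_comm, hp.idem]
  have hre : (τ b).re = 0 := by
    rw [hb, map_sub, map_smul, smul_eq_mul, Complex.sub_re, Complex.mul_re, h2]
    simp only [Complex.ofReal_re, Complex.ofReal_im, mul_zero, sub_zero]
    rw [ht, div_mul_cancel₀ _ h1.ne', sub_self]
  have hb0 : b = 0 := by
    rcases sign hR hp hbs hpb with h | h
    · apply eq_zero_of_tau hf h
      have h3 := Complex.nonneg_iff.1 (tau_nonneg hτ h)
      exact Complex.ext hre h3.2.symm
    · have h3 := Complex.nonneg_iff.1 (tau_nonneg hτ h)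
      rw [map_neg, Complex.neg_im] at h3
      have h4 : τ (-b) = 0 := by
        rw [map_neg, neg_eq_zero]
        apply Complex.ext hre
        have := h3.2
        simp only [Complex.zero_im]
        linarith
      exact neg_eq_zero.1 (eq_zero_of_tau hf h h4)
  rw [hb, sub_eq_zero] at hb0
  exact hb0

theorem scalar [PartialOrder A] [StarOrderedRing A] (hR : HR A) {τ : A →ₗ[ℂ] ℂ}
    (hτ : IsTracialState τ) (hf : ∀ a : A, τ (star a * a) = 0 → a = 0) {p : A} (hp : HM p)
    {x : A} (h1 : p * x = x) (h2 : x * p = x) : ∃ c : ℂ, x = c • p := by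
  have h3 : p * star x = star x := by
    have := congrArg star h2
    rwa [star_mul, hp.sa] at this
  obtain ⟨c, hc⟩ := scalar_sa hR hτ hf hp (a := x + star x)
    (by rw [star_add, star_star, add_comm]) (by rw [mul_add, h1, h3])
  obtain ⟨d, hd⟩ := scalar_sa hR hτ hf hp (a := Complex.I • (star x - x))
    (by
      rw [star_smul, star_sub, star_star]
      simp only [RCLike.star_def, Complex.conj_I, neg_smul, ← smul_neg, neg_sub])
    (by rw [mul_smul_comm, mul_sub, h1, h3])
  refine ⟨(1 / 2 : ℂ) * (c + Complex.I * d), ?_⟩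
  have h4 : (2 : ℂ) • x = (x + star x) + Complex.I • (Complex.I • (star x - x)) := by
    rw [smul_smul, Complex.I_mul_I, two_smul]
    simp
  rw [hc, hd, smul_smul, ← add_smul] at h4
  calc x = (1 / 2 : ℂ) • ((2 : ℂ) • x) := by rw [smul_smul]; norm_num
    _ = _ := by rw [h4, smul_smul]

/-- `n` orthogonal copies of `p` -/
def Q (p : A) (n : ℕ) : Prop := ∃ v : Fin n → A, (∀ i, star (v i) * v i = p) ∧
  ∀ i j, i ≠ j → star (v i) * v j = 0

theorem mul_p {p v : A} (hp : HM p) (h : star v * v = p) : v * p = v := by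
  have h1 : v * (1 - p) = 0 := by
    apply (CStarRing.star_mul_self_eq_zero_iff _).1
    calc star (v * (1 - p)) * (v * (1 - p)) = (1 - p) * ((star v * v) * (1 - p)) := by
          rw [star_mul, star_sub, star_one, hp.sa]; simp only [mul_assoc]
      _ = 0 := by rw [h, mul_sub, mul_one, hp.idem, sub_self, mul_zero]
  rw [mul_sub, mul_one, sub_eq_zero] at h1
  exact h1.symm

theorem p_mul {p v : A} (hp : HM p) (h : star v * v = p) : p * star v = star v := by
  have := congrArg star (mul_p hp h)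
  rwa [star_mul, hp.sa] at this

theorem e_facts {p : A} (hp : HM p) {n : ℕ} {v : Fin n → A} (h1 : ∀ i, star (v i) * v i = p)
    (h2 : ∀ i j, i ≠ j → star (v i) * v j = 0) :
    (∀ i, star (v i) * (∑ j, v j * star (v j)) = star (v i)) ∧
    star (∑ j, v j * star (v j)) = ∑ j, v j * star (v j) ∧
    (∑ j, v j * star (v j)) * (∑ j, v j * star (v j)) = ∑ j, v j * star (v j) := by
  have a1 : ∀ i, star (v i) * (∑ j, v j * star (v j)) = star (v i) := by
    intro i
    rw [mul_sum, Finset.sum_eq_single i]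
    · rw [← mul_assoc, h1, p_mul hp (h1 i)]
    · intro j _ hj
      rw [← mul_assoc, h2 i j hj.symm, zero_mul]
    · intro h; exact absurd (mem_univ i) h
  refine ⟨a1, ?_, ?_⟩
  · rw [star_sum]
    exact Finset.sum_congr rfl fun i _ => by rw [star_mul, star_star]
  · conv_lhs => rw [sum_mul]
    exact Finset.sum_congr rfl fun i _ => by rw [mul_assoc, a1]

theorem bound {τ : A →ₗ[ℂ] ℂ} (hτ : IsTracialState τ) {p : A} (hp : HM p) {n : ℕ} (h : Q p n) :
    n * (τ p).re ≤ 1 := by
  obtain ⟨v, h1, h2⟩ := h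
  obtain ⟨a1, a2, a3⟩ := e_facts hp h1 h2
  set e := ∑ j, v j * star (v j) with he
  have h3 : star (1 - e) * (1 - e) = 1 - e := by
    rw [star_sub, star_one, a2, sub_mul, mul_sub, mul_sub, a3]; simp
  have h4 := hτ.pos (1 - e)
  rw [h3, map_sub, hτ.one] at h4
  have h5 : τ e = n * τ p := by
    rw [he, map_sum, Finset.sum_congr rfl (fun i _ => (hτ.comm (v i) (star (v i))).trans
      (congrArg τ (h1 i)))]
    simp
  rw [h5, Complex.nonneg_iff] at h4
  have h6 := h4.1
  simp only [Complex.sub_re, Complex.one_re, Complex.mul_re, Complex.natCast_re,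
    Complex.natCast_im, zero_mul, sub_zero] at h6
  linarith

theorem extend (hC : HC A) {p : A} (hp : HM p) {n : ℕ} {v : Fin n → A}
    (h1 : ∀ i, star (v i) * v i = p) (h2 : ∀ i j, i ≠ j → star (v i) * v j = 0)
    (hr : 1 - ∑ j, v j * star (v j) ≠ 0) : Q p (n + 1) := by
  obtain ⟨a1, a2, a3⟩ := e_facts hp h1 h2
  set e := ∑ j, v j * star (v j) with he
  have r1 : star (1 - e) = 1 - e := by rw [star_sub, star_one, a2]
  have r2 : (1 - e) * (1 - e) = 1 - e := by
    rw [sub_mul, mul_sub, mul_sub, a3]; simp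
  have key : ∀ w : A, star w * w = p → (1 - e) * w = w → Q p (n + 1) := by
    intro w hw1 hw2
    have b1 : ∀ i, star (v i) * w = 0 := by
      intro i
      rw [← hw2, ← mul_assoc, mul_sub, mul_one, a1, sub_self, zero_mul]
    have b2 : ∀ i, star w * v i = 0 := by
      intro i
      have := congrArg star (b1 i)
      rwa [star_mul, star_star, star_zero] at this
    refine ⟨Fin.cons w v, ?_, ?_⟩
    · intro i
      refine Fin.cases ?_ (fun i => ?_) i
      · simpa using hw1
      · simpa using h1 i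
    · intro i j
      refine Fin.cases ?_ (fun i => ?_) i
      · refine Fin.cases ?_ (fun j => ?_) j
        · intro h; exact absurd rfl h
        · intro _; simpa using b2 j
      · refine Fin.cases ?_ (fun j => ?_) j
        · intro _; simpa using b1 i
        · intro h
          have h' : i ≠ j := fun h3 => h (by rw [h3])
          simpa using h2 i j h'
  obtain ⟨w, ⟨hw1, hw2⟩ | ⟨hw1, hw2⟩⟩ := hC p (1 - e) hp.sa hp.idem r1 r2
  · exact key w hw1 hw2
  · have c1 : (1 - e) * w = w := by
      have h3 : (1 - (1 - e)) * w = 0 := by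
        apply (CStarRing.mul_star_self_eq_zero_iff _).1
        calc ((1 - (1 - e)) * w) * star ((1 - (1 - e)) * w) =
              (1 - (1 - e)) * (w * star w) * star (1 - (1 - e)) := by
              rw [star_mul]; simp only [mul_assoc]
          _ = 0 := by rw [hw1, sub_mul 1 (1 - e), r2, one_mul, sub_self, zero_mul]
      rw [sub_mul, one_mul, sub_eq_zero] at h3
      exact h3.symm
    have c2 : star (star w * w) = star w * w := by rw [star_mul, star_star]
    have c3 : (star w * w) * (star w * w) = star w * w := by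
      calc (star w * w) * (star w * w) = star w * ((w * star w) * w) := by
            simp only [mul_assoc]
        _ = _ := by rw [hw1, c1]
    have c4 : p * (star w * w) = star w * w := by
      have := congrArg star hw2
      rw [star_mul, hp.sa] at this
      rw [← mul_assoc, this]
    rcases hp.min _ c2 c3 c4 with h3 | h3
    · exfalso
      have h4 : w = 0 := (CStarRing.star_mul_self_eq_zero_iff _).1 h3
      rw [h4, zero_mul] at hw1
      exact hr hw1.symm
    · exact key w h3 c1

theorem finite_of_min [PartialOrder A] [StarOrderedRing A] (hR : HR A) (hC : HC A)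
    {τ : A →ₗ[ℂ] ℂ} (hτ : IsTracialState τ) (hf : ∀ a : A, τ (star a * a) = 0 → a = 0) {p : A}
    (hp : HM p) : FiniteDimensional ℂ A := by
  have hmax : ∃ n, Q p n ∧ ¬ Q p (n + 1) := by
    by_contra hcon
    push Not at hcon
    have hall : ∀ n, Q p n := by
      intro n
      induction n with
      | zero => exact ⟨fun i => i.elim0, fun i => i.elim0, fun i => i.elim0⟩
      | succ n ih => exact hcon n ih
    obtain ⟨n, hn⟩ := exists_nat_gt (1 / (τ p).re)
    have h1 := bound hτ hp (hall n)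
    have h2 := (tau_p_pos hτ hf hp).1
    rw [div_lt_iff₀ h2] at hn
    linarith
  obtain ⟨n, ⟨v, h1, h2⟩, h3⟩ := hmax
  have hr : 1 - ∑ j, v j * star (v j) = 0 := by
    by_contra hc
    exact h3 (extend hC hp h1 h2 hc)
  have he : ∑ j, v j * star (v j) = 1 := (sub_eq_zero.1 hr).symm
  have hs : ∀ x : A, ∀ i j, ∃ c : ℂ, star (v i) * x * v j = c • p := by
    intro x i j
    apply scalar hR hτ hf hp
    · rw [← mul_assoc, ← mul_assoc, p_mul hp (h1 i)]
    · rw [mul_assoc, mul_p hp (h1 j)]
  refine Module.Finite.of_surjective (Fintype.linearCombination ℂ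
    (fun ij : Fin n × Fin n => v ij.1 * star (v ij.2))) ?_
  intro x
  choose c hc using hs x
  refine ⟨fun ij => c ij.1 ij.2, ?_⟩
  rw [Fintype.linearCombination_apply, Fintype.sum_prod_type]
  calc ∑ i, ∑ j, c i j • (v i * star (v j)) =
        ∑ i, ∑ j, v i * (star (v i) * x * v j) * star (v j) := by
        refine Finset.sum_congr rfl fun i _ => Finset.sum_congr rfl fun j _ => ?_
        rw [hc i j, mul_smul_comm, mul_p hp (h1 i), smul_mul_assoc]
    _ = (∑ i, v i * star (v i)) * x * (∑ j, v j * star (v j)) := by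
        rw [sum_mul, sum_mul_sum]
        refine Finset.sum_congr rfl fun i _ => Finset.sum_congr rfl fun j _ => ?_
        simp only [mul_assoc]
    _ = x := by rw [he, one_mul, mul_one]

end abs

end F07

open F07 in
theorem prove5_nomin (h1 : F_range.{u}) (h2 : F_comp.{u}) : F_nomin.{u} := by
  intro H _ _ _ M τ hM p hpM hp hp0
  by_contra hcon
  push Not at hcon
  let _ : PartialOrder M.toStarSubalgebra := CStarAlgebra.spectralOrder _
  have _ : StarOrderedRing M.toStarSubalgebra := CStarAlgebra.spectralOrderedRing _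
  apply hM.infinite
  have hR : HR M.toStarSubalgebra := by
    intro b
    obtain ⟨r, hrM, hr, hr1, hr2⟩ := h1 H M b b.2
    refine ⟨⟨r, hrM⟩, Subtype.ext hr.1, Subtype.ext hr.2, Subtype.ext hr1, ?_⟩
    intro x hx
    exact Subtype.ext (hr2 x (congrArg Subtype.val hx))
  have hC : HC M.toStarSubalgebra := by
    intro p q hp1 hp2 hq1 hq2
    obtain ⟨v, hvM, hv⟩ := h2 H M hM.center p p.2 q q.2
      ⟨congrArg Subtype.val hp1, congrArg Subtype.val hp2⟩
      ⟨congrArg Subtype.val hq1, congrArg Subtype.val hq2⟩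
    refine ⟨⟨v, hvM⟩, ?_⟩
    rcases hv with ⟨h3, h4⟩ | ⟨h3, h4⟩
    · exact Or.inl ⟨Subtype.ext h3, Subtype.ext h4⟩
    · exact Or.inr ⟨Subtype.ext h3, Subtype.ext h4⟩
  have hmin : HM (⟨p, hpM⟩ : M.toStarSubalgebra) := by
    refine ⟨Subtype.ext hp.1, Subtype.ext hp.2, fun h => hp0 (congrArg Subtype.val h), ?_⟩
    intro q hq1 hq2 hq3
    by_cases h0 : q = 0
    · exact Or.inl h0
    · right
      have := hcon q q.2 ⟨congrArg Subtype.val hq1, congrArg Subtype.val hq2⟩
        (congrArg Subtype.val hq3) (fun h => h0 (Subtype.ext h))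
      exact Subtype.ext this
  exact finite_of_min hR hC hM.trace hM.faithful hmin

end H759R2.Kad
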